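import Mathlib

/-!
# Dismantling solutions in the boxes `C(3,3,6)` and `C(3,3,8)`

A dismantling of a box of unit cubes deletes, one after another, cubes with exactly three
neighbours in the current position. We exhibit dismantlings of the `3 × 3 × 6` and of the
`3 × 3 × 8` box that end with pairwise non-adjacent cubes, so that part (c) of the conjecture
(no solution in `C(3,3,k)` for even `k ≠ 4`) is false.
-/

set_option autoImplicit false

namespace Pool.Agent.Results.MP_93d976_co.EvenThin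

/-- A unit cube, given by its three coordinates. -/
abbrev Cube := ℕ × ℕ × ℕ

/-- The box `C(k,l,m) = {1,…,k} × {1,…,l} × {1,…,m}` of `klm` unit cubes. -/
def box (k l m : ℕ) : Finset Cube :=
  Finset.Icc 1 k ×ˢ (Finset.Icc 1 l ×ˢ Finset.Icc 1 m)

/-- Two cubes are neighbours when their coordinate vectors differ by `1` in exactly one
coordinate (and agree in the other two). -/
def Nbr (a b : Cube) : Prop :=
  ((a.1 + 1 = b.1 ∨ b.1 + 1 = a.1) ∧ a.2.1 = b.2.1 ∧ a.2.2 = b.2.2) ∨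
  (a.1 = b.1 ∧ (a.2.1 + 1 = b.2.1 ∨ b.2.1 + 1 = a.2.1) ∧ a.2.2 = b.2.2) ∨
  (a.1 = b.1 ∧ a.2.1 = b.2.1 ∧ (a.2.2 + 1 = b.2.2 ∨ b.2.2 + 1 = a.2.2))

instance (a b : Cube) : Decidable (Nbr a b) := by unfold Nbr; infer_instance

/-- The positions that can be reached from the full box `C(k,l,m)` by a dismantling: a move
deletes from the current position `P` a cube `c ∈ P` that has exactly `3` neighbours in `P`. -/
inductive Reachable (k l m : ℕ) : Finset Cube → Prop
  | full : Reachable k l m (box k l m)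
  | move (P : Finset Cube) (c : Cube) : Reachable k l m P → c ∈ P →
      (P.filter (fun b => Nbr c b)).card = 3 → Reachable k l m (P.erase c)

/-- `C(k,l,m)` has a solution: some reachable position contains no two neighbouring cubes. -/
def HasSolution (k l m : ℕ) : Prop :=
  ∃ S : Finset Cube, Reachable k l m S ∧ ∀ a ∈ S, ∀ b ∈ S, ¬ Nbr a b

/-- Boolean check that the moves of the list can be made one after another from `P` and that the
final position contains no two neighbouring cubes. -/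
def check : Finset Cube → List Cube → Bool
  | P, [] => decide (∀ a ∈ P, ∀ b ∈ P, ¬ Nbr a b)
  | P, c :: L => decide (c ∈ P) && decide ((P.filter (fun b => Nbr c b)).card = 3) &&
      check (P.erase c) L

theorem sound (k l m : ℕ) (L : List Cube) :
    ∀ P : Finset Cube, Reachable k l m P → check P L = true → HasSolution k l m := by
  induction L with
  | nil =>
    intro P hP h
    exact ⟨P, hP, of_decide_eq_true h⟩
  | cons c L ih =>
    intro P hP h
    simp only [check, Bool.and_eq_true, decide_eq_true_eq] at h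
    exact ih _ (Reachable.move P c hP h.1.1 h.1.2) h.2

def moves6 : List Cube :=
  [(3,1,1), (1,3,6), (1,3,5), (3,1,6), (3,1,2), (2,3,6), (2,3,5), (3,3,5), (3,2,6), (3,2,5),
   (3,1,3), (2,2,6), (2,2,5), (1,3,4), (1,2,5), (1,2,4), (1,1,4), (3,1,4), (2,1,4), (2,1,3),
   (1,3,3), (1,3,1), (1,2,3), (2,3,1), (2,2,4), (2,2,3), (1,2,1), (2,3,3), (2,3,2), (1,2,2),
   (3,3,4), (3,3,2), (3,2,3), (3,2,1), (2,2,2), (2,1,5), (2,1,1), (1,1,6), (1,1,2)]

def moves8 : List Cube :=
  [(1,3,1), (1,2,1), (3,3,1), (3,2,1), (2,2,1), (2,1,1), (3,3,2), (3,2,2), (3,1,2), (2,1,2),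
   (1,1,2), (1,1,3), (1,1,4), (1,1,5), (1,1,6), (1,2,2), (1,1,7), (3,3,8), (3,2,8), (2,3,8),
   (2,2,8), (2,1,8), (2,1,7), (1,2,3), (3,1,7), (3,1,6), (1,3,3), (3,2,7), (3,2,6), (2,2,7),
   (2,1,3), (1,3,4), (3,3,6), (3,3,5), (3,3,4), (2,3,7), (2,3,4), (2,3,3), (2,2,3), (2,1,4),
   (1,3,7), (1,3,6), (1,2,6), (3,2,5), (3,2,3), (3,1,4), (2,3,5), (2,3,2), (2,2,6), (2,2,4),
   (2,1,5), (1,2,8), (1,2,5)]

theorem sol6 : HasSolution 3 3 6 :=
  sound 3 3 6 moves6 _ Reachable.full (by decide +kernel)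

theorem sol8 : HasSolution 3 3 8 :=
  sound 3 3 8 moves8 _ Reachable.full (by decide +kernel)

/-- `C(3,3,6)` and `C(3,3,8)` have solutions; hence statement (c), and with it the conjunction
(a) ∧ (b) ∧ (c) of Q1, is false. -/
theorem result :
    HasSolution 3 3 6 ∧ HasSolution 3 3 8 ∧
    ¬ ((∀ k : ℕ, 1 ≤ k → Odd k → HasSolution 3 3 k) ∧
       (∀ k : ℕ, 1 ≤ k → Even k → k ≠ 4 → ¬ HasSolution 3 3 k)) ∧
    ¬ ((∀ k : ℕ, 3 ≤ k → k ≠ 5 → ¬ HasSolution 2 2 k) ∧
       (∀ k : ℕ, 1 ≤ k → k ≠ 6 → ¬ HasSolution 2 3 k) ∧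
       (∀ k : ℕ, 1 ≤ k → Odd k → HasSolution 3 3 k) ∧
       (∀ k : ℕ, 1 ≤ k → Even k → k ≠ 4 → ¬ HasSolution 3 3 k)) := by
  refine ⟨sol6, sol8, ?_, ?_⟩
  · rintro ⟨-, h⟩
    exact h 6 (by norm_num) ⟨3, rfl⟩ (by norm_num) sol6
  · rintro ⟨-, -, -, h⟩
    exact h 6 (by norm_num) ⟨3, rfl⟩ (by norm_num) sol6

end Pool.Agent.Results.MP_93d976_co.EvenThin
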